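import Pool.Agent.Helper77.DS.Col

/-!
DS-3a (MP_b07a0a): functions on injections with vanishing line sums and vanishing differences.
-/

namespace Pool.Agent.Helper77.DS

noncomputable section

namespace InjV

variable {Z : Type} [Fintype Z] [DecidableEq Z] {M : ℕ}

/-- the involution exchanging one coordinate with a spare value -/
def swapE (s : Fin M) : ((Fin M → Z) × Z) ≃ ((Fin M → Z) × Z) where
  toFun p := (Function.update p.1 s p.2, p.1 s)
  invFun p := (Function.update p.1 s p.2, p.1 s)
  left_inv p := by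
    rcases p with ⟨y, x⟩
    simp
  right_inv p := by
    rcases p with ⟨y, x⟩
    simp

omit [DecidableEq Z] in
theorem sum_update {A : Type} [AddCommMonoid A] (s : Fin M) (f : (Fin M → Z) → A) :
    ∑ y : Fin M → Z, ∑ x : Z, f (Function.update y s x) = Fintype.card Z • ∑ y, f y := by
  rw [← Fintype.sum_prod_type' (fun (y : Fin M → Z) (x : Z) => f (Function.update y s x))]
  rw [Fintype.sum_equiv (swapE s) (fun p => f (Function.update p.1 s p.2)) (fun p => f p.1)
    (fun p => rfl)]
  rw [Fintype.sum_prod_type]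
  simp only [Finset.sum_const, Finset.card_univ]
  rw [Finset.smul_sum]

open Classical in
theorem card_graph (s : Fin M) (φ : (Fin M → Z) → Z)
    (hφ : ∀ y x, φ (Function.update y s x) = φ y) :
    Fintype.card Z * (Finset.univ.filter fun y : Fin M → Z => y s = φ y).card =
      Fintype.card Z ^ M := by
  have h := sum_update (Z := Z) s (fun y => if y s = φ y then 1 else 0)
  simp only [Function.update_self, hφ] at h
  rw [Finset.card_filter]
  rw [smul_eq_mul] at h
  rw [← h]
  have : ∀ y : Fin M → Z, (∑ x : Z, if x = φ y then 1 else 0) = 1 := by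
    intro y
    simp
  rw [Finset.sum_congr rfl (fun y _ => this y)]
  simp

open Classical in
theorem card_bad (κ : Fin M → Z) (hκ : Function.Injective κ) :
    Fintype.card Z *
      (Finset.univ.filter fun y : Fin M → Z => ¬ Function.Injective (Sum.elim κ y)).card ≤
      2 * M ^ 2 * Fintype.card Z ^ M := by
  have hsub : (Finset.univ.filter fun y : Fin M → Z => ¬ Function.Injective (Sum.elim κ y)) ⊆
      (Finset.univ : Finset (Fin M × Fin M)).biUnion fun p =>
        (Finset.univ.filter fun y : Fin M → Z => y p.1 = κ p.2) ∪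
          (Finset.univ.filter fun y : Fin M → Z => p.1 ≠ p.2 ∧ y p.1 = y p.2) := by
    intro y hy
    simp only [Finset.mem_filter, Finset.mem_univ, true_and] at hy
    simp only [Finset.mem_biUnion, Finset.mem_univ, true_and, Finset.mem_union,
      Finset.mem_filter, Prod.exists]
    by_contra hc
    push Not at hc
    apply hy
    intro a b hab
    rcases a with a | a <;> rcases b with b | b
    · simp only [Sum.elim_inl] at hab
      rw [hκ hab]
    · simp only [Sum.elim_inl, Sum.elim_inr] at hab
      exact absurd hab.symm (hc b a).1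
    · simp only [Sum.elim_inl, Sum.elim_inr] at hab
      exact absurd hab (hc a b).1
    · simp only [Sum.elim_inr] at hab
      by_contra hne
      have hne' : a ≠ b := fun h => hne (by rw [h])
      exact (hc a b).2 hne' hab
  have hA : ∀ p : Fin M × Fin M, Fintype.card Z *
      (Finset.univ.filter fun y : Fin M → Z => y p.1 = κ p.2).card = Fintype.card Z ^ M := by
    intro p
    exact card_graph p.1 (fun _ => κ p.2) (fun _ _ => rfl)
  have hB : ∀ p : Fin M × Fin M, Fintype.card Z *
      (Finset.univ.filter fun y : Fin M → Z => p.1 ≠ p.2 ∧ y p.1 = y p.2).card ≤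
      Fintype.card Z ^ M := by
    intro p
    by_cases hp : p.1 = p.2
    · simp [hp]
    · have := card_graph (Z := Z) p.1 (fun y => y p.2) (fun y x => by
        rw [Function.update_of_ne (fun h => hp h.symm)])
      simp only [ne_eq, hp, not_false_eq_true, true_and]
      exact this.le
  calc Fintype.card Z *
      (Finset.univ.filter fun y : Fin M → Z => ¬ Function.Injective (Sum.elim κ y)).card
      ≤ Fintype.card Z * ∑ p : Fin M × Fin M,
        ((Finset.univ.filter fun y : Fin M → Z => y p.1 = κ p.2).card +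
          (Finset.univ.filter fun y : Fin M → Z => p.1 ≠ p.2 ∧ y p.1 = y p.2).card) := by
        refine Nat.mul_le_mul_left _ ?_
        refine (Finset.card_le_card hsub).trans ?_
        refine Finset.card_biUnion_le.trans ?_
        exact Finset.sum_le_sum fun p _ => Finset.card_union_le _ _
    _ = ∑ p : Fin M × Fin M, (Fintype.card Z *
        (Finset.univ.filter fun y : Fin M → Z => y p.1 = κ p.2).card + Fintype.card Z *
          (Finset.univ.filter fun y : Fin M → Z => p.1 ≠ p.2 ∧ y p.1 = y p.2).card) := by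
        rw [Finset.mul_sum]
        refine Finset.sum_congr rfl fun p _ => ?_
        rw [mul_add]
    _ ≤ ∑ _p : Fin M × Fin M, (Fintype.card Z ^ M + Fintype.card Z ^ M) := by
        refine Finset.sum_le_sum fun p _ => ?_
        exact Nat.add_le_add (hA p).le (hB p)
    _ = 2 * M ^ 2 * Fintype.card Z ^ M := by
        simp only [Finset.sum_const, Finset.card_univ, Fintype.card_prod, Fintype.card_fin,
          smul_eq_mul]
        ring

end InjV

open InjV in
/-- DS-3a -/
theorem inj_vanish {Z : Type} [Fintype Z] [DecidableEq Z] (M : ℕ)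
    (hZ : 2 ^ (M + 1) * M ^ 2 < Fintype.card Z) (G : (Fin M → Z) → ℂ)
    (h0 : ∀ κ : Fin M → Z, ¬ Function.Injective κ → G κ = 0)
    (h1 : ∀ (κ : Fin M → Z) (s : Fin M), ∑ x, G (Function.update κ s x) = 0)
    (h2 : ∀ κ y : Fin M → Z, Function.Injective (Sum.elim κ y) →
      ∑ S : Finset (Fin M), (-1) ^ S.card * G (S.piecewise y κ) = 0) (κ : Fin M → Z) :
    G κ = 0 := by
  classical
  have hzpos : 0 < Fintype.card Z := lt_of_le_of_lt (Nat.zero_le _) hZ
  obtain ⟨κ0, -, hmax⟩ := Finset.exists_max_image (Finset.univ : Finset (Fin M → Z))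
    (fun κ => ‖G κ‖) ⟨κ, Finset.mem_univ _⟩
  have hmax' : ∀ y, ‖G y‖ ≤ ‖G κ0‖ := fun y => hmax y (Finset.mem_univ _)
  by_contra hne
  have hB : 0 < ‖G κ0‖ := lt_of_lt_of_le (norm_pos_iff.mpr hne) (hmax' κ)
  have hinj : Function.Injective κ0 := by
    by_contra hni
    rw [h0 κ0 hni, norm_zero] at hB
    exact lt_irrefl _ hB
  -- the sum over all y
  have hS : ∀ S : Finset (Fin M), S ≠ ∅ → ∑ y : Fin M → Z, G (S.piecewise y κ0) = 0 := by
    intro S hS
    obtain ⟨s, hs⟩ := Finset.nonempty_iff_ne_empty.mpr hS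
    have h := sum_update (Z := Z) s (fun y => G (S.piecewise y κ0))
    have h' : ∀ y : Fin M → Z, ∑ x : Z, G (S.piecewise (Function.update y s x) κ0) = 0 := by
      intro y
      rw [← h1 (S.piecewise y κ0) s]
      refine Finset.sum_congr rfl fun x _ => ?_
      rw [← Finset.update_piecewise_of_mem _ _ _ hs]
    simp only [h', Finset.sum_const_zero] at h
    rw [nsmul_eq_mul] at h
    rcases mul_eq_zero.mp h.symm with h | h
    · exact absurd (Nat.cast_eq_zero.mp h) hzpos.ne'
    · exact h
  have hsum : ∑ y : Fin M → Z, ∑ S : Finset (Fin M), (-1 : ℂ) ^ S.card * G (S.piecewise y κ0) =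
      (Fintype.card Z : ℂ) ^ M * G κ0 := by
    rw [Finset.sum_comm]
    rw [Finset.sum_eq_single (∅ : Finset (Fin M))]
    · simp
    · intro S _ hS'
      rw [← Finset.mul_sum, hS S hS', mul_zero]
    · intro h
      exact absurd (Finset.mem_univ _) h
  set bad : Finset (Fin M → Z) :=
    Finset.univ.filter fun y : Fin M → Z => ¬ Function.Injective (Sum.elim κ0 y) with hbad
  have hbound : ‖(Fintype.card Z : ℂ) ^ M * G κ0‖ ≤ bad.card * (2 ^ M * ‖G κ0‖) := by
    rw [← hsum]
    have : ∑ y : Fin M → Z, ∑ S : Finset (Fin M), (-1 : ℂ) ^ S.card * G (S.piecewise y κ0) =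
        ∑ y ∈ bad, ∑ S : Finset (Fin M), (-1 : ℂ) ^ S.card * G (S.piecewise y κ0) := by
      symm
      refine Finset.sum_subset (Finset.subset_univ _) fun y _ hy => ?_
      refine h2 κ0 y ?_
      by_contra hc
      exact hy (Finset.mem_filter.mpr ⟨Finset.mem_univ _, hc⟩)
    rw [this]
    refine (norm_sum_le _ _).trans ?_
    rw [← nsmul_eq_mul]
    refine Finset.sum_le_card_nsmul _ _ _ fun y _ => ?_
    refine (norm_sum_le _ _).trans ?_
    have hle : ∀ S ∈ (Finset.univ : Finset (Finset (Fin M))),
        ‖(-1 : ℂ) ^ S.card * G (S.piecewise y κ0)‖ ≤ ‖G κ0‖ := by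
      intro S _
      rw [norm_mul, norm_pow, norm_neg, norm_one, one_pow, one_mul]
      exact hmax' _
    refine (Finset.sum_le_card_nsmul _ _ _ hle).trans (le_of_eq ?_)
    rw [Finset.card_univ, Fintype.card_finset, Fintype.card_fin, nsmul_eq_mul]
    push_cast
    rfl
  have hbound2 : (Fintype.card Z : ℝ) ^ M ≤ bad.card * 2 ^ M := by
    rw [norm_mul, norm_pow, Complex.norm_natCast, ← mul_assoc] at hbound
    exact le_of_mul_le_mul_right hbound hB
  have hbound3 : Fintype.card Z ^ M ≤ bad.card * 2 ^ M := by exact_mod_cast hbound2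
  have hcb := card_bad κ0 hinj
  have h4 : Fintype.card Z * Fintype.card Z ^ M ≤ 2 ^ (M + 1) * M ^ 2 * Fintype.card Z ^ M := by
    calc Fintype.card Z * Fintype.card Z ^ M ≤ Fintype.card Z * (bad.card * 2 ^ M) :=
          Nat.mul_le_mul_left _ hbound3
      _ = (Fintype.card Z * bad.card) * 2 ^ M := by ring
      _ ≤ (2 * M ^ 2 * Fintype.card Z ^ M) * 2 ^ M := Nat.mul_le_mul_right _ (by
          convert hcb using 3)
      _ = 2 ^ (M + 1) * M ^ 2 * Fintype.card Z ^ M := by ring
  have h5 : Fintype.card Z ≤ 2 ^ (M + 1) * M ^ 2 :=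
    Nat.le_of_mul_le_mul_right h4 (pow_pos hzpos M)
  omega

end

end Pool.Agent.Helper77.DS
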